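import Mathlib

/-!
# LS8c: the third class moment, abstract form (helper887, for helper356)
-/

set_option autoImplicit false

namespace Pool.Agent.N887.LS.A3core

open Finset MeasureTheory

/-- Cauchy-Schwarz for continuous functions on `[0,1]` -/
theorem cs {a b : ℝ → ℝ} (ha : Continuous a) (hb : Continuous b) :
    (∫ x in (0:ℝ)..1, a x * b x) ^ 2 ≤
      (∫ x in (0:ℝ)..1, a x ^ 2) * ∫ x in (0:ℝ)..1, b x ^ 2 := by
  have h : ∀ y : ℝ, 0 ≤ (∫ x in (0:ℝ)..1, a x ^ 2) * (y * y) +
      (2 * ∫ x in (0:ℝ)..1, a x * b x) * y + ∫ x in (0:ℝ)..1, b x ^ 2 := by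
    intro y
    have h1 : 0 ≤ ∫ x in (0:ℝ)..1, (y * a x + b x) ^ 2 :=
      intervalIntegral.integral_nonneg zero_le_one fun x _ => sq_nonneg _
    have e : ∀ x, (y * a x + b x) ^ 2 = y * y * a x ^ 2 + (2 * y) * (a x * b x) + b x ^ 2 := by
      intro x; ring
    simp only [e] at h1
    have i1 : IntervalIntegrable (fun x => y * y * a x ^ 2) volume 0 1 :=
      (continuous_const.mul (ha.pow 2)).intervalIntegrable _ _
    have i2 : IntervalIntegrable (fun x => (2 * y) * (a x * b x)) volume 0 1 :=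
      (continuous_const.mul (ha.mul hb)).intervalIntegrable _ _
    have i3 : IntervalIntegrable (fun x => b x ^ 2) volume 0 1 :=
      (hb.pow 2).intervalIntegrable _ _
    rw [intervalIntegral.integral_add (i1.add i2) i3, intervalIntegral.integral_add i1 i2,
      intervalIntegral.integral_const_mul, intervalIntegral.integral_const_mul] at h1
    linarith
  have h2 := discrim_le_zero h
  unfold discrim at h2
  nlinarith

variable {Γ : Type*} [AddCommGroup Γ] [DecidableEq Γ]

theorem sum_neg {M : Type*} [AddCommMonoid M] {C : Finset Γ} (hneg : ∀ s ∈ C, -s ∈ C)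
    (F : Γ → M) : ∑ s ∈ C, F (-s) = ∑ s ∈ C, F s := by
  refine Finset.sum_nbij' (fun s => -s) (fun s => -s) hneg hneg ?_ ?_ ?_
  · intro s _; exact neg_neg s
  · intro s _; exact neg_neg s
  · intro s _; rfl

/-- symmetrization of the weights -/
theorem symm_weights {C : Finset Γ} {θ : Γ → Γ → ℝ}
    (tri : ∀ r ∈ C, ∀ s ∈ C, ∀ t ∈ C, r + s + t = 0 → θ r s + θ s t + θ t r = 3)
    (X : Γ → Γ → Γ → ℝ) (hX0 : ∀ r s t, r + s + t ≠ 0 → X r s t = 0)
    (hXs : ∀ r s t, X r s t = X s t r) :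
    ∑ r ∈ C, ∑ s ∈ C, ∑ t ∈ C, X r s t = ∑ r ∈ C, ∑ s ∈ C, ∑ t ∈ C, θ s t * X r s t := by
  have h3 : 3 * ∑ r ∈ C, ∑ s ∈ C, ∑ t ∈ C, X r s t =
      ∑ r ∈ C, ∑ s ∈ C, ∑ t ∈ C, (θ r s * X r s t + θ s t * X r s t + θ t r * X r s t) := by
    rw [Finset.mul_sum]
    refine Finset.sum_congr rfl fun r hr => ?_
    rw [Finset.mul_sum]
    refine Finset.sum_congr rfl fun s hs => ?_
    rw [Finset.mul_sum]
    refine Finset.sum_congr rfl fun t ht => ?_
    by_cases h : r + s + t = 0
    · rw [← tri r hr s hs t ht h]; ring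
    · rw [hX0 r s t h]; ring
  have e1 : ∑ r ∈ C, ∑ s ∈ C, ∑ t ∈ C, θ r s * X r s t =
      ∑ r ∈ C, ∑ s ∈ C, ∑ t ∈ C, θ s t * X r s t := by
    -- rename (r, s, t) as (s, t, r)
    calc ∑ r ∈ C, ∑ s ∈ C, ∑ t ∈ C, θ r s * X r s t
        = ∑ s ∈ C, ∑ t ∈ C, ∑ r ∈ C, θ s t * X s t r := rfl
      _ = ∑ s ∈ C, ∑ r ∈ C, ∑ t ∈ C, θ s t * X s t r :=
          Finset.sum_congr rfl fun s _ => Finset.sum_comm
      _ = ∑ r ∈ C, ∑ s ∈ C, ∑ t ∈ C, θ s t * X s t r := Finset.sum_comm
      _ = _ := by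
          refine Finset.sum_congr rfl fun r _ => Finset.sum_congr rfl fun s _ =>
            Finset.sum_congr rfl fun t _ => ?_
          rw [← hXs]
  have e2 : ∑ r ∈ C, ∑ s ∈ C, ∑ t ∈ C, θ t r * X r s t =
      ∑ r ∈ C, ∑ s ∈ C, ∑ t ∈ C, θ s t * X r s t := by
    calc ∑ r ∈ C, ∑ s ∈ C, ∑ t ∈ C, θ t r * X r s t
        = ∑ t ∈ C, ∑ r ∈ C, ∑ s ∈ C, θ s t * X t r s := rfl
      _ = ∑ r ∈ C, ∑ t ∈ C, ∑ s ∈ C, θ s t * X t r s := Finset.sum_comm
      _ = ∑ r ∈ C, ∑ s ∈ C, ∑ t ∈ C, θ s t * X t r s :=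
          Finset.sum_congr rfl fun r _ => Finset.sum_comm
      _ = _ := by
          refine Finset.sum_congr rfl fun r _ => Finset.sum_congr rfl fun s _ =>
            Finset.sum_congr rfl fun t _ => ?_
          rw [hXs t r s]
  simp only [Finset.sum_add_distrib] at h3
  rw [e1, e2] at h3
  linarith

/-- the weights are used at most once -/
theorem weights_once {C : Finset Γ} {θ : Γ → Γ → ℝ} (nn : ∀ s t, 0 ≤ θ s t) (s t u v : Γ) :
    ∑ r ∈ C, (if s + t = -r then θ s t else 0) * (if u + v = r then θ u v else 0) ≤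
      θ s t * θ u v := by
  calc ∑ r ∈ C, (if s + t = -r then θ s t else 0) * (if u + v = r then θ u v else 0)
      ≤ ∑ r ∈ C, (if u + v = r then θ s t * θ u v else 0) := by
        refine Finset.sum_le_sum fun r _ => ?_
        by_cases h : u + v = r
        · rw [if_pos h, if_pos h]
          apply mul_le_mul_of_nonneg_right _ (nn u v)
          split_ifs
          · exact le_rfl
          · exact nn s t
        · rw [if_neg h, if_neg h, mul_zero]
    _ ≤ θ s t * θ u v := by
        rw [Finset.sum_ite_eq]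
        split_ifs
        · exact le_rfl
        · exact mul_nonneg (nn _ _) (nn _ _)

/-- The abstract inequality. -/
theorem main {C : Finset Γ} {θ : Γ → Γ → ℝ} (hneg : ∀ s ∈ C, -s ∈ C) (nn : ∀ s t, 0 ≤ θ s t)
    (even : ∀ s t, θ (-s) (-t) = θ s t)
    (tri : ∀ r ∈ C, ∀ s ∈ C, ∀ t ∈ C, r + s + t = 0 → θ r s + θ s t + θ t r = 3)
    {G F : ℝ → ℝ} (hG : Continuous G) {φ : Γ → ℝ → ℂ} (hφ : ∀ c, Continuous (φ c))
    (hconj : ∀ c x, (starRingEnd ℂ) (φ c x) = φ (-c) x) (hF : ∀ x, (F x : ℂ) = ∑ c ∈ C, φ c x)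
    (X : Γ → Γ → Γ → ℝ) (hX0 : ∀ r s t, r + s + t ≠ 0 → X r s t = 0)
    (hX : ∀ r s t, (∫ x in (0:ℝ)..1, (G x : ℂ) ^ 3 * (φ r x * (φ s x * φ t x))) = (X r s t : ℂ))
    (I : Γ → Γ → Γ → Γ → Γ → ℝ) (hI0 : ∀ r s t u v, 0 ≤ I r s t u v)
    (hI : ∀ r s t u v, (∫ x in (0:ℝ)..1, φ r x * (φ (-r) x * (φ s x * (φ t x * (φ u x * φ v x)))))
      = (I r s t u v : ℂ)) :
    (∫ x in (0:ℝ)..1, G x ^ 3 * F x ^ 3) ^ 2 ≤ (∫ x in (0:ℝ)..1, G x ^ 6) *
      ∑ r ∈ C, ∑ s ∈ C, ∑ t ∈ C, ∑ u ∈ C, ∑ v ∈ C, θ s t * θ u v * I r s t u v := by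
  have hGc : Continuous fun x => (G x : ℂ) ^ 3 := (Complex.continuous_ofReal.comp hG).pow 3
  have hXs : ∀ r s t, X r s t = X s t r := by
    intro r s t
    have h1 := hX r s t
    have h2 := hX s t r
    have e : ∀ x, (G x : ℂ) ^ 3 * (φ r x * (φ s x * φ t x)) =
        (G x : ℂ) ^ 3 * (φ s x * (φ t x * φ r x)) := by intro x; ring
    simp only [e] at h1
    rw [h1] at h2
    exact_mod_cast h2
  -- Step A
  have hA : (∫ x in (0:ℝ)..1, G x ^ 3 * F x ^ 3) = ∑ r ∈ C, ∑ s ∈ C, ∑ t ∈ C, X r s t := by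
    have h1 : (((∫ x in (0:ℝ)..1, G x ^ 3 * F x ^ 3) : ℝ) : ℂ) =
        ((∑ r ∈ C, ∑ s ∈ C, ∑ t ∈ C, X r s t : ℝ) : ℂ) := by
      rw [← intervalIntegral.integral_ofReal]
      have e : ∀ x, ((G x ^ 3 * F x ^ 3 : ℝ) : ℂ) =
          ∑ r ∈ C, ∑ s ∈ C, ∑ t ∈ C, (G x : ℂ) ^ 3 * (φ r x * (φ s x * φ t x)) := by
        intro x
        push_cast
        have e3 : (F x : ℂ) ^ 3 = (F x : ℂ) * ((F x : ℂ) * (F x : ℂ)) := by ring
        rw [e3, hF]
        simp only [Finset.sum_mul, Finset.mul_sum]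
        rw [Finset.sum_comm]
        refine Finset.sum_congr rfl fun r _ => ?_
        rw [Finset.sum_comm]
        rw [Finset.sum_comm]
        refine Finset.sum_congr rfl fun s _ => Finset.sum_congr rfl fun t _ => ?_
        ring
      simp only [e]
      rw [intervalIntegral.integral_finsetSum]
      · push_cast
        refine Finset.sum_congr rfl fun r _ => ?_
        rw [intervalIntegral.integral_finsetSum]
        · refine Finset.sum_congr rfl fun s _ => ?_
          rw [intervalIntegral.integral_finsetSum]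
          · exact Finset.sum_congr rfl fun t _ => hX r s t
          · intro t _
            exact (hGc.mul ((hφ r).mul ((hφ s).mul (hφ t)))).intervalIntegrable _ _
        · intro s _
          exact (continuous_finsetSum _ fun t _ =>
            hGc.mul ((hφ r).mul ((hφ s).mul (hφ t)))).intervalIntegrable _ _
      · intro r _
        exact (continuous_finsetSum _ fun s _ => continuous_finsetSum _ fun t _ =>
            hGc.mul ((hφ r).mul ((hφ s).mul (hφ t)))).intervalIntegrable _ _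
    exact_mod_cast h1
  -- the functions V
  obtain ⟨V, hV⟩ : ∃ V : Γ → ℝ → ℂ, V = fun r x => ∑ s ∈ C, ∑ t ∈ C,
      (((if s + t = -r then θ s t else 0 : ℝ)) : ℂ) * (φ s x * φ t x) := ⟨_, rfl⟩
  have hVx : ∀ r x, V r x = ∑ s ∈ C, ∑ t ∈ C,
      (((if s + t = -r then θ s t else 0 : ℝ)) : ℂ) * (φ s x * φ t x) := by
    intro r x; rw [hV]
  have hVc : ∀ r, Continuous (V r) := by
    intro r
    rw [hV]
    exact continuous_finsetSum _ fun s _ => continuous_finsetSum _ fun t _ =>
      continuous_const.mul ((hφ s).mul (hφ t))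
  have hVconj : ∀ r x, (starRingEnd ℂ) (V r x) = ∑ u ∈ C, ∑ v ∈ C,
      (((if u + v = r then θ u v else 0 : ℝ)) : ℂ) * (φ u x * φ v x) := by
    intro r x
    rw [hVx, map_sum]
    simp only [map_sum, map_mul, Complex.conj_ofReal, hconj]
    rw [← sum_neg hneg]
    refine Finset.sum_congr rfl fun s _ => ?_
    rw [← sum_neg hneg]
    refine Finset.sum_congr rfl fun t _ => ?_
    rw [neg_neg, neg_neg, even]
    congr 2
    have : (-s + -t = -r) ↔ (s + t = r) := by
      rw [← neg_add, neg_inj]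
    simp only [this]
  -- Step C
  obtain ⟨Φ, hΦ⟩ : ∃ Φ : ℝ → ℂ, Φ = fun x => ∑ r ∈ C, φ r x * V r x := ⟨_, rfl⟩
  have hΦc : Continuous Φ := by
    rw [hΦ]
    exact continuous_finsetSum _ fun r _ => (hφ r).mul (hVc r)
  have hC : (∫ x in (0:ℝ)..1, (G x : ℂ) ^ 3 * Φ x) =
      ((∫ x in (0:ℝ)..1, G x ^ 3 * F x ^ 3 : ℝ) : ℂ) := by
    rw [hA, symm_weights tri X hX0 hXs, hΦ]
    have e : ∀ x, (G x : ℂ) ^ 3 * ∑ r ∈ C, φ r x * V r x =
        ∑ r ∈ C, ∑ s ∈ C, ∑ t ∈ C, (((if s + t = -r then θ s t else 0 : ℝ)) : ℂ) *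
          ((G x : ℂ) ^ 3 * (φ r x * (φ s x * φ t x))) := by
      intro x
      rw [Finset.mul_sum]
      refine Finset.sum_congr rfl fun r _ => ?_
      rw [hVx, Finset.mul_sum, Finset.mul_sum]
      refine Finset.sum_congr rfl fun s _ => ?_
      rw [Finset.mul_sum, Finset.mul_sum]
      refine Finset.sum_congr rfl fun t _ => ?_
      ring
    simp only [e]
    have hc0 : ∀ r s t : Γ, Continuous fun x => (((if s + t = -r then θ s t else 0 : ℝ)) : ℂ) *
          ((G x : ℂ) ^ 3 * (φ r x * (φ s x * φ t x))) := fun r s t =>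
      continuous_const.mul (hGc.mul ((hφ r).mul ((hφ s).mul (hφ t))))
    rw [intervalIntegral.integral_finsetSum]
    · push_cast
      refine Finset.sum_congr rfl fun r _ => ?_
      rw [intervalIntegral.integral_finsetSum]
      · refine Finset.sum_congr rfl fun s _ => ?_
        rw [intervalIntegral.integral_finsetSum]
        · refine Finset.sum_congr rfl fun t _ => ?_
          rw [intervalIntegral.integral_const_mul, hX]
          by_cases h : s + t = -r
          · rw [if_pos h]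
          · rw [if_neg h, hX0 r s t]
            · simp
            · intro h'
              apply h
              have : s + t = (r + s + t) + -r := by abel
              rw [this, h', zero_add]
        · intro t _
          exact (hc0 r s t).intervalIntegrable _ _
      · intro s _
        exact (continuous_finsetSum _ fun t _ => hc0 r s t).intervalIntegrable _ _
    · intro r _
      exact (continuous_finsetSum _ fun s _ => continuous_finsetSum _ fun t _ =>
        hc0 r s t).intervalIntegrable _ _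
  -- Cauchy-Schwarz
  have hnorm : |∫ x in (0:ℝ)..1, G x ^ 3 * F x ^ 3| ≤ ∫ x in (0:ℝ)..1, |G x ^ 3| * ‖Φ x‖ := by
    have h1 : |∫ x in (0:ℝ)..1, G x ^ 3 * F x ^ 3| =
        ‖∫ x in (0:ℝ)..1, (G x : ℂ) ^ 3 * Φ x‖ := by
      rw [hC, Complex.norm_real, Real.norm_eq_abs]
    rw [h1]
    refine (intervalIntegral.norm_integral_le_integral_norm zero_le_one).trans (le_of_eq ?_)
    congr 1
    funext x
    rw [norm_mul, norm_pow, Complex.norm_real, Real.norm_eq_abs, abs_pow]
  have hcs := cs (a := fun x => |G x ^ 3|) (b := fun x => ‖Φ x‖) (hG.pow 3).abs hΦc.norm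
  have e6 : ∀ x, |G x ^ 3| ^ 2 = G x ^ 6 := by
    intro x
    rw [sq_abs]; ring
  simp only [e6] at hcs
  have hG6 : 0 ≤ ∫ x in (0:ℝ)..1, G x ^ 6 :=
    intervalIntegral.integral_nonneg zero_le_one fun x _ => by positivity
  have hstep1 : (∫ x in (0:ℝ)..1, G x ^ 3 * F x ^ 3) ^ 2 ≤
      (∫ x in (0:ℝ)..1, G x ^ 6) * ∫ x in (0:ℝ)..1, ‖Φ x‖ ^ 2 := by
    refine le_trans ?_ hcs
    rw [← sq_abs]
    exact pow_le_pow_left₀ (abs_nonneg _) hnorm 2
  refine hstep1.trans (mul_le_mul_of_nonneg_left ?_ hG6)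
  -- the pointwise inequality
  obtain ⟨Ψ, hΨ⟩ : ∃ Ψ : ℝ → ℝ, Ψ = fun x => (∑ r ∈ C, ‖φ r x‖ ^ 2) * ∑ r ∈ C, ‖V r x‖ ^ 2 :=
    ⟨_, rfl⟩
  have hΨc : Continuous Ψ := by
    rw [hΨ]
    exact (continuous_finsetSum _ fun r _ => (hφ r).norm.pow 2).mul
      (continuous_finsetSum _ fun r _ => (hVc r).norm.pow 2)
  have hpt : ∀ x, ‖Φ x‖ ^ 2 ≤ Ψ x := by
    intro x
    rw [hΦ, hΨ]
    have h1 : ‖∑ r ∈ C, φ r x * V r x‖ ≤ ∑ r ∈ C, ‖φ r x‖ * ‖V r x‖ := by
      refine (norm_sum_le _ _).trans (le_of_eq ?_)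
      exact Finset.sum_congr rfl fun r _ => norm_mul _ _
    exact (pow_le_pow_left₀ (norm_nonneg _) h1 2).trans (Finset.sum_mul_sq_le_sq_mul_sq _ _ _)
  refine (intervalIntegral.integral_mono_on zero_le_one ((hΦc.norm.pow 2).intervalIntegrable _ _)
    (hΨc.intervalIntegrable _ _) fun x _ => hpt x).trans ?_
  -- the integral of Ψ
  have hΨx : ∀ x, (Ψ x : ℂ) = ∑ q ∈ C, ∑ r ∈ C, ∑ s ∈ C, ∑ t ∈ C, ∑ u ∈ C, ∑ v ∈ C,
      (((if s + t = -r then θ s t else 0) * (if u + v = r then θ u v else 0) : ℝ) : ℂ) *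
        (φ q x * (φ (-q) x * (φ s x * (φ t x * (φ u x * φ v x))))) := by
    intro x
    have h1 : (Ψ x : ℂ) = ∑ q ∈ C, ∑ r ∈ C, (φ q x * φ (-q) x) *
        ((∑ s ∈ C, ∑ t ∈ C, (((if s + t = -r then θ s t else 0 : ℝ)) : ℂ) * (φ s x * φ t x)) *
        ∑ u ∈ C, ∑ v ∈ C, (((if u + v = r then θ u v else 0 : ℝ)) : ℂ) * (φ u x * φ v x)) := by
      rw [hΨ]
      push_cast
      rw [Finset.sum_mul_sum]
      refine Finset.sum_congr rfl fun q _ => Finset.sum_congr rfl fun r _ => ?_
      rw [← Complex.mul_conj', ← Complex.mul_conj', hVconj, hconj, hVx]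
    rw [h1]
    refine Finset.sum_congr rfl fun q _ => Finset.sum_congr rfl fun r _ => ?_
    rw [Finset.sum_mul, Finset.mul_sum]
    refine Finset.sum_congr rfl fun s _ => ?_
    rw [Finset.sum_mul, Finset.mul_sum]
    refine Finset.sum_congr rfl fun t _ => ?_
    rw [Finset.mul_sum, Finset.mul_sum]
    refine Finset.sum_congr rfl fun u _ => ?_
    rw [Finset.mul_sum, Finset.mul_sum]
    refine Finset.sum_congr rfl fun v _ => ?_
    push_cast
    ring
  have hint : (∫ x in (0:ℝ)..1, Ψ x) = ∑ q ∈ C, ∑ r ∈ C, ∑ s ∈ C, ∑ t ∈ C, ∑ u ∈ C, ∑ v ∈ C,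
      ((if s + t = -r then θ s t else 0) * (if u + v = r then θ u v else 0)) *
        I q s t u v := by
    have hc0 : ∀ q r s t u v : Γ, Continuous fun x =>
        (((if s + t = -r then θ s t else 0) * (if u + v = r then θ u v else 0) : ℝ) : ℂ) *
        (φ q x * (φ (-q) x * (φ s x * (φ t x * (φ u x * φ v x))))) := fun q r s t u v =>
      continuous_const.mul ((hφ q).mul ((hφ (-q)).mul ((hφ s).mul ((hφ t).mul
        ((hφ u).mul (hφ v))))))
    have h1 : (((∫ x in (0:ℝ)..1, Ψ x) : ℝ) : ℂ) = ((∑ q ∈ C, ∑ r ∈ C, ∑ s ∈ C, ∑ t ∈ C,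
        ∑ u ∈ C, ∑ v ∈ C, ((if s + t = -r then θ s t else 0) *
          (if u + v = r then θ u v else 0)) * I q s t u v : ℝ) : ℂ) := by
      rw [← intervalIntegral.integral_ofReal]
      simp only [hΨx]
      rw [intervalIntegral.integral_finsetSum]
      · rw [Complex.ofReal_sum]
        refine Finset.sum_congr rfl fun q _ => ?_
        rw [intervalIntegral.integral_finsetSum]
        · rw [Complex.ofReal_sum]
          refine Finset.sum_congr rfl fun r _ => ?_
          rw [intervalIntegral.integral_finsetSum]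
          · rw [Complex.ofReal_sum]
            refine Finset.sum_congr rfl fun s _ => ?_
            rw [intervalIntegral.integral_finsetSum]
            · rw [Complex.ofReal_sum]
              refine Finset.sum_congr rfl fun t _ => ?_
              rw [intervalIntegral.integral_finsetSum]
              · rw [Complex.ofReal_sum]
                refine Finset.sum_congr rfl fun u _ => ?_
                rw [intervalIntegral.integral_finsetSum]
                · rw [Complex.ofReal_sum]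
                  refine Finset.sum_congr rfl fun v _ => ?_
                  rw [intervalIntegral.integral_const_mul, hI, ← Complex.ofReal_mul]
                · intro v _
                  exact (hc0 q r s t u v).intervalIntegrable _ _
              · intro u _
                exact (continuous_finsetSum _ fun v _ => hc0 q r s t u v).intervalIntegrable _ _
            · intro t _
              exact (continuous_finsetSum _ fun u _ => continuous_finsetSum _ fun v _ =>
                hc0 q r s t u v).intervalIntegrable _ _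
          · intro s _
            exact (continuous_finsetSum _ fun t _ => continuous_finsetSum _ fun u _ =>
              continuous_finsetSum _ fun v _ => hc0 q r s t u v).intervalIntegrable _ _
        · intro r _
          exact (continuous_finsetSum _ fun s _ => continuous_finsetSum _ fun t _ =>
            continuous_finsetSum _ fun u _ =>
              continuous_finsetSum _ fun v _ => hc0 q r s t u v).intervalIntegrable _ _
      · intro q _
        exact (continuous_finsetSum _ fun r _ => continuous_finsetSum _ fun s _ =>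
          continuous_finsetSum _ fun t _ => continuous_finsetSum _ fun u _ =>
              continuous_finsetSum _ fun v _ => hc0 q r s t u v).intervalIntegrable _ _
    exact_mod_cast h1
  rw [hint]
  refine Finset.sum_le_sum fun q _ => ?_
  -- move the sum over r inside
  have hcomm : ∑ r ∈ C, ∑ s ∈ C, ∑ t ∈ C, ∑ u ∈ C, ∑ v ∈ C,
      ((if s + t = -r then θ s t else 0) * (if u + v = r then θ u v else 0)) * I q s t u v =
      ∑ s ∈ C, ∑ t ∈ C, ∑ u ∈ C, ∑ v ∈ C, (∑ r ∈ C,
      ((if s + t = -r then θ s t else 0) * (if u + v = r then θ u v else 0))) * I q s t u v := by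
    rw [Finset.sum_comm]
    refine Finset.sum_congr rfl fun s _ => ?_
    rw [Finset.sum_comm]
    refine Finset.sum_congr rfl fun t _ => ?_
    rw [Finset.sum_comm]
    refine Finset.sum_congr rfl fun u _ => ?_
    rw [Finset.sum_comm]
    refine Finset.sum_congr rfl fun v _ => ?_
    rw [Finset.sum_mul]
  rw [hcomm]
  refine Finset.sum_le_sum fun s _ => Finset.sum_le_sum fun t _ => Finset.sum_le_sum fun u _ =>
    Finset.sum_le_sum fun v _ => ?_
  exact mul_le_mul_of_nonneg_right (weights_once nn s t u v) (hI0 _ _ _ _ _)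

end Pool.Agent.N887.LS.A3core
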