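import Pool.Agent.N356.SP.Defs
import Pool.Agent.N645.LS.L7a
import Pool.Agent.N887.LS.A3core

/-!
# LS8c: the third class moment (helper887, for helper356)
-/

set_option autoImplicit false

namespace Pool.Agent.N887.LS

open Finset Pool.Agent.H384R3.SPk Pool.Agent.N356.SP

/-- LS8c, with `J_spec` as a hypothesis -/
theorem A3_le_of
    (HJ : ∀ (m : ℕ) (g f : ℤ →₀ ℝ), (∀ n, 0 ≤ g n) → (∀ n, 0 ≤ f n) →
      (∀ n ∈ g.support, ((n : ℤ) : ZMod m) = 0) → ∀ (i : ℕ) (U : Multiset (ZMod m)),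
      ∃ r : ℝ, 0 ≤ r ∧ (U.sum ≠ 0 → r = 0) ∧
        (∫ x in (0:ℝ)..1, ((cosp g x : ℝ) : ℂ) ^ i * (U.map fun c => cl m f c x).prod) = (r : ℂ))
    {m : ℕ} {C : Finset (ZMod m)} {θ : ZMod m → ZMod m → ℝ} {g f : ℤ →₀ ℝ}
    (h : GoodC C θ) (hg0 : ∀ n, 0 ≤ g n) (hf0 : ∀ n, 0 ≤ f n)
    (hg : ∀ n ∈ g.support, ((n : ℤ) : ZMod m) = 0)
    (hf : ∀ n ∈ f.support, ((n : ℤ) : ZMod m) ∈ C) :
    AJ 3 3 g f ^ 2 ≤ Mc 3 g * ∑ r ∈ C, ∑ s ∈ C, ∑ t ∈ C, ∑ u ∈ C, ∑ v ∈ C,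
      θ s t * θ u v * Ic m f {r, -r, s, t, u, v} := by
  have HX : ∀ r s t : ZMod m, ∃ X : ℝ, (r + s + t ≠ 0 → X = 0) ∧
      (∫ x in (0:ℝ)..1, (cosp g x : ℂ) ^ 3 * (cl m f r x * (cl m f s x * cl m f t x))) =
        (X : ℂ) := by
    intro r s t
    obtain ⟨X, _, h2, h3⟩ := HJ m g f hg0 hf0 hg 3 {r, s, t}
    refine ⟨X, fun h' => h2 ?_, ?_⟩
    · have : (({r, s, t} : Multiset (ZMod m))).sum = r + s + t := by
        simp [add_assoc]
      rwa [this]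
    · rw [← h3]
      congr 1
      funext x
      simp
  choose X hX0 hX using HX
  have HI : ∀ U : Multiset (ZMod m), 0 ≤ Ic m f U ∧
      (∫ x in (0:ℝ)..1, (U.map fun c => cl m f c x).prod) = (Ic m f U : ℂ) := by
    intro U
    obtain ⟨r, h1, _, h3⟩ := HJ m g f hg0 hf0 hg 0 U
    simp only [pow_zero, one_mul] at h3
    have h4 : Ic m f U = r := by
      unfold Ic
      rw [h3, Complex.ofReal_re]
    exact ⟨by rw [h4]; exact h1, by rw [h4, h3]⟩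
  have key := A3core.main (C := C) (θ := θ) h.neg h.nn h.even h.tri
    (G := cosp g) (F := cosp f) (Pool.Agent.N645.LS.cosp_cont g) (φ := cl m f)
    (Pool.Agent.N645.LS.cl_cont m f) (Pool.Agent.N645.LS.cl_conj m f)
    (Pool.Agent.N645.LS.cosp_eq m f C h.neg hf) X hX0 hX
    (fun r s t u v => Ic m f {r, -r, s, t, u, v}) (fun r s t u v => (HI _).1)
    (fun r s t u v => by
      rw [← (HI {r, -r, s, t, u, v}).2]
      congr 1
      funext x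
      simp)
  exact key

end Pool.Agent.N887.LS

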